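import Pool.Agent.H586.AF.E

/-!
TASK AH-JN (project AF/AH of helper586): the near region of the spin part (helper42; adapted from
helper230's AF/J.lean).
-/

set_option autoImplicit false

open MeasureTheory Filter Topology

namespace Pool.Agent.H42.AH

open Pool.Agent.H586.AF Pool.Agent.H586.AF.EE

/-- the half line -/
noncomputable abbrev hl : Measure ℝ := (volume : Measure ℝ).restrict (Set.Ioi (0:ℝ))

theorem map_add : Measure.map (fun p : ℝ × ℝ => p.1 + p.2) (hl.prod hl) =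
    (volume : Measure ℝ).withDensity (fun u => ENNReal.ofReal u) := by
  ext s hs
  rw [Measure.map_apply (by fun_prop) hs, withDensity_apply _ hs]
  have hT : MeasurableSet {p : ℝ × ℝ | p.1 < p.2 ∧ p.2 ∈ s} :=
    (measurableSet_lt measurable_fst measurable_snd).inter (measurable_snd hs)
  have hA : MeasurableSet ((fun p : ℝ × ℝ => p.1 + p.2) ⁻¹' s) :=
    (by fun_prop : Measurable fun p : ℝ × ℝ => p.1 + p.2) hs
  have h1 : (hl.prod hl) ((fun p : ℝ × ℝ => p.1 + p.2) ⁻¹' s) =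
      (hl.prod (volume : Measure ℝ)) {p : ℝ × ℝ | p.1 < p.2 ∧ p.2 ∈ s} := by
    rw [Measure.prod_apply hA, Measure.prod_apply hT]
    apply lintegral_congr
    intro t
    have h2 : (Prod.mk t ⁻¹' ((fun p : ℝ × ℝ => p.1 + p.2) ⁻¹' s)) ∩ Set.Ioi (0:ℝ) =
        (fun y => t + y) ⁻¹' (Prod.mk t ⁻¹' {p : ℝ × ℝ | p.1 < p.2 ∧ p.2 ∈ s}) := by
      ext y
      simp only [Set.mem_inter_iff, Set.mem_preimage, Set.mem_Ioi, Set.mem_ofPred_eq]
      constructor
      · rintro ⟨h3, h4⟩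
        exact ⟨by linarith, h3⟩
      · rintro ⟨h3, h4⟩
        exact ⟨h4, by linarith⟩
    rw [Measure.restrict_apply (measurable_prodMk_left hA), h2, measure_preimage_add]
  rw [h1, Measure.prod_apply_symm hT, ← lintegral_indicator hs]
  apply lintegral_congr
  intro u
  have h3 : MeasurableSet ((fun x : ℝ => (x, u)) ⁻¹' {p : ℝ × ℝ | p.1 < p.2 ∧ p.2 ∈ s}) :=
    measurable_prodMk_right hT
  rw [Measure.restrict_apply h3]
  by_cases hu : u ∈ s
  · rw [Set.indicator_of_mem hu]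
    have h4 : (fun x : ℝ => (x, u)) ⁻¹' {p : ℝ × ℝ | p.1 < p.2 ∧ p.2 ∈ s} ∩ Set.Ioi 0 =
        Set.Ioo 0 u := by
      ext x
      simp only [Set.mem_inter_iff, Set.mem_preimage, Set.mem_Ioi, Set.mem_ofPred_eq, Set.mem_Ioo]
      exact ⟨fun h => ⟨h.2, h.1.1⟩, fun h => ⟨⟨h.2, hu⟩, h.1⟩⟩
    rw [h4, Real.volume_Ioo, sub_zero]
  · rw [Set.indicator_of_notMem hu]
    have h4 : (fun x : ℝ => (x, u)) ⁻¹' {p : ℝ × ℝ | p.1 < p.2 ∧ p.2 ∈ s} ∩ Set.Ioi 0 = ∅ := by
      ext x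
      simp only [Set.mem_inter_iff, Set.mem_preimage, Set.mem_Ioi, Set.mem_ofPred_eq,
        Set.mem_empty_iff_false, iff_false]
      exact fun h => hu h.1.2
    rw [h4, measure_empty]

theorem int_add {f : ℝ → ℝ} (hf : Measurable f)
    (hi : IntegrableOn (fun u => u * f u) (Set.Ioi 0)) :
    Integrable (fun p : ℝ × ℝ => f (p.1 + p.2)) (hl.prod hl) ∧
      ∫ p, f (p.1 + p.2) ∂(hl.prod hl) = ∫ u in Set.Ioi (0:ℝ), u * f u := by
  have hm : AEMeasurable (fun p : ℝ × ℝ => p.1 + p.2) (hl.prod hl) := by fun_prop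
  have hO : Measurable (fun u : ℝ => ENNReal.ofReal u) := ENNReal.measurable_ofReal
  have hlt : ∀ᵐ u ∂(volume : Measure ℝ), ENNReal.ofReal u < ⊤ :=
    Eventually.of_forall fun _ => ENNReal.ofReal_lt_top
  have hind : (fun u : ℝ => (ENNReal.ofReal u).toReal • f u) =
      (Set.Ioi (0:ℝ)).indicator (fun u => u * f u) := by
    funext u
    rcases le_or_gt u 0 with h | h
    · rw [Set.indicator_of_notMem (by simpa using h), ENNReal.ofReal_of_nonpos h]
      simp
    · rw [Set.indicator_of_mem (by simpa using h), ENNReal.toReal_ofReal h.le, smul_eq_mul]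
  constructor
  · have h1 : Integrable f (Measure.map (fun p : ℝ × ℝ => p.1 + p.2) (hl.prod hl)) := by
      rw [map_add, integrable_withDensity_iff_integrable_smul' hO hlt, hind,
        integrable_indicator_iff measurableSet_Ioi]
      exact hi
    exact (integrable_map_measure hf.aestronglyMeasurable hm).1 h1
  · have h1 := integral_map (f := f) hm hf.aestronglyMeasurable
    rw [← h1, map_add, integral_withDensity_eq_integral_toReal_smul hO hlt, hind,
      integral_indicator measurableSet_Ioi]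


theorem tele4 {x1 x2 x3 x4 y1 y2 y3 y4 B δ : ℝ}
    (h2 : |x2| ≤ B) (h3 : |x3| ≤ B) (h4 : |x4| ≤ B) (k1 : |y1| ≤ B) (k2 : |y2| ≤ B)
    (k3 : |y3| ≤ B) (d1 : |x1 - y1| ≤ δ) (d2 : |x2 - y2| ≤ δ) (d3 : |x3 - y3| ≤ δ)
    (d4 : |x4 - y4| ≤ δ) : |x1 * x2 * x3 * x4 - y1 * y2 * y3 * y4| ≤ 4 * δ * B ^ 3 := by
  have hδ : 0 ≤ δ := (abs_nonneg _).trans d1
  have e : x1 * x2 * x3 * x4 - y1 * y2 * y3 * y4 = (x1 - y1) * x2 * x3 * x4 +
      y1 * (x2 - y2) * x3 * x4 + y1 * y2 * (x3 - y3) * x4 + y1 * y2 * y3 * (x4 - y4) := by ring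
  have p : ∀ {a b c d α β γ ε : ℝ}, |a| ≤ α → |b| ≤ β → |c| ≤ γ → |d| ≤ ε →
      |a * b * c * d| ≤ α * β * γ * ε := by
    intro a b c d α β γ ε ha hb hc hd
    have hα := (abs_nonneg a).trans ha
    have hβ := (abs_nonneg b).trans hb
    have hγ := (abs_nonneg c).trans hc
    rw [abs_mul, abs_mul, abs_mul]
    exact mul_le_mul (mul_le_mul (mul_le_mul ha hb (abs_nonneg _) hα) hc (abs_nonneg _)
      (mul_nonneg hα hβ)) hd (abs_nonneg _) (mul_nonneg (mul_nonneg hα hβ) hγ)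
  have q1 := p d1 h2 h3 h4
  have q2 := p k1 d2 h3 h4
  have q3 := p k1 k2 d3 h4
  have q4 := p k1 k2 k3 d4
  rw [e]
  have t1 := abs_add_le ((x1 - y1) * x2 * x3 * x4 +
      y1 * (x2 - y2) * x3 * x4 + y1 * y2 * (x3 - y3) * x4) (y1 * y2 * y3 * (x4 - y4))
  have t2 := abs_add_le ((x1 - y1) * x2 * x3 * x4 +
      y1 * (x2 - y2) * x3 * x4) (y1 * y2 * (x3 - y3) * x4)
  have t3 := abs_add_le ((x1 - y1) * x2 * x3 * x4) (y1 * (x2 - y2) * x3 * x4)
  have r1 : δ * B * B * B = δ * B ^ 3 := by ring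
  have r2 : B * δ * B * B = δ * B ^ 3 := by ring
  have r3 : B * B * δ * B = δ * B ^ 3 := by ring
  have r4 : B * B * B * δ = δ * B ^ 3 := by ring
  rw [r1] at q1
  rw [r2] at q2
  rw [r3] at q3
  rw [r4] at q4
  linarith

theorem rp32 {u : ℝ} (hu : 0 ≤ u) : u ^ (3 / 2 : ℝ) = (Real.sqrt u) ^ 3 := by
  rw [Real.sqrt_eq_rpow, ← Real.rpow_natCast, ← Real.rpow_mul hu]
  norm_num

/-- the integrand of the main term -/
noncomputable def psi (u : ℝ) : ℝ := u * (gg u * gg u * hh u * hh u)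


/-- dominating function -/
noncomputable def ED (A R : ℝ) (l : ℝ) (u : ℝ) : ℝ :=
  (Set.Iic R).indicator (fun u => A * l ^ 3 * u ^ (-(3 / 2) : ℝ)) u

/-- main function -/
noncomputable def ph (R l : ℝ) (u : ℝ) : ℝ :=
  (Set.Iic R).indicator (fun u => l ^ 4 * (gg u * gg u * hh u * hh u)) u

theorem meas_ED (A R l : ℝ) : Measurable (ED A R l) := by
  unfold ED
  apply Measurable.indicator _ measurableSet_Iic
  have h1 : Measurable fun u : ℝ => u ^ (-(3 / 2) : ℝ) := measurable_id.pow_const _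
  exact h1.const_mul _

theorem int_ED (A R l : ℝ) (hR : 0 < R) :
    IntegrableOn (fun u => u * ED A R l u) (Set.Ioi 0) ∧
      ∫ u in Set.Ioi (0:ℝ), u * ED A R l u = 2 * (A * l ^ 3) * Real.sqrt R := by
  have hii : IntervalIntegrable (fun u : ℝ => u ^ (-(1 / 2) : ℝ)) volume 0 R :=
    intervalIntegral.intervalIntegrable_rpow' (by norm_num)
  have hon : IntegrableOn (fun u : ℝ => A * l ^ 3 * u ^ (-(1 / 2) : ℝ)) (Set.Ioc 0 R) :=
    ((intervalIntegrable_iff_integrableOn_Ioc_of_le hR.le).1 hii).const_mul _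
  have heq : ∀ u ∈ Set.Ioi (0:ℝ), (Set.Iic R).indicator
      (fun u => A * l ^ 3 * u ^ (-(1 / 2) : ℝ)) u = u * ED A R l u := by
    intro u hu
    have hu0 : (0:ℝ) < u := hu
    unfold ED
    by_cases h : u ∈ Set.Iic R
    · rw [Set.indicator_of_mem h, Set.indicator_of_mem h]
      have h2 : (-(1 / 2) : ℝ) = 1 + -(3 / 2) := by norm_num
      rw [h2, Real.rpow_add hu0, Real.rpow_one]
      ring
    · rw [Set.indicator_of_notMem h, Set.indicator_of_notMem h, mul_zero]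
  have hI : IntegrableOn ((Set.Iic R).indicator (fun u : ℝ => A * l ^ 3 * u ^ (-(1 / 2) : ℝ)))
      (Set.Ioi 0) := by
    rw [IntegrableOn, integrable_indicator_iff measurableSet_Iic, IntegrableOn,
      Measure.restrict_restrict measurableSet_Iic, Set.inter_comm, Set.Ioi_inter_Iic]
    exact hon
  refine ⟨hI.congr_fun heq measurableSet_Ioi, ?_⟩
  rw [← setIntegral_congr_fun measurableSet_Ioi heq, setIntegral_indicator measurableSet_Iic,
    Set.Ioi_inter_Iic, ← intervalIntegral.integral_of_le hR.le,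
    intervalIntegral.integral_const_mul, integral_rpow (Or.inl (by norm_num))]
  have h3 : (-(1 / 2) : ℝ) + 1 = 1 / 2 := by norm_num
  rw [h3, Real.zero_rpow (by norm_num), ← Real.sqrt_eq_rpow]
  ring

theorem meas_ph (R l : ℝ) (hhc : Continuous hh) (hgc : Continuous gg) : Measurable (ph R l) := by
  unfold ph
  apply Measurable.indicator _ measurableSet_Iic
  exact (by fun_prop : Continuous fun u => l ^ 4 * (gg u * gg u * hh u * hh u)).measurable

theorem int_ph (R l : ℝ) (hR : 0 ≤ R) (hhc : Continuous hh) (hgc : Continuous gg) :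
    IntegrableOn (fun u => u * ph R l u) (Set.Ioi 0) ∧
      ∫ u in Set.Ioi (0:ℝ), u * ph R l u = l ^ 4 * ∫ u in (0:ℝ)..R, psi u := by
  have hpc : Continuous psi := by
    unfold psi
    fun_prop
  have heq : (fun u => u * ph R l u) = (Set.Iic R).indicator (fun u => l ^ 4 * psi u) := by
    funext u
    unfold ph psi
    by_cases hu : u ∈ Set.Iic R
    · rw [Set.indicator_of_mem hu, Set.indicator_of_mem hu]
      ring
    · rw [Set.indicator_of_notMem hu, Set.indicator_of_notMem hu, mul_zero]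
  rw [heq]
  have hc : Continuous fun u => l ^ 4 * psi u := by fun_prop
  constructor
  · rw [IntegrableOn, integrable_indicator_iff measurableSet_Iic, IntegrableOn,
      Measure.restrict_restrict measurableSet_Iic, Set.inter_comm, Set.Ioi_inter_Iic]
    exact (hc.integrableOn_Icc (a := 0) (b := R)).mono_set Set.Ioc_subset_Icc_self
  · rw [setIntegral_indicator measurableSet_Iic, Set.Ioi_inter_Iic,
      ← intervalIntegral.integral_of_le hR, intervalIntegral.integral_const_mul]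

theorem ptw {C0 C1 : ℝ} (hC0 : 1 ≤ C0) (hC1 : 1 ≤ C1) {R l τ n1 n2 c d g h : ℝ} (hl : 2 ≤ l)
    (hRl : R ≤ l ^ 2)
    (hτ : 0 < τ) (hg0 : 0 ≤ g) (hg : g ≤ C1 / Real.sqrt (1 + τ)) (hh0 : 0 ≤ h)
    (hh' : h ≤ C1 / Real.sqrt (1 + τ)) (h1 : |n1 - l * g| ≤ C0) (h2 : |n2 - l * g| ≤ C0)
    (h3 : |c - l * h| ≤ C0) (h4 : |d - l * h| ≤ C0) (hτR : τ ≤ R) :
    |n1 * n2 * c * d - l ^ 4 * (g * g * h * h)| ≤
      4 * C0 * (C1 + 2 * C0) ^ 3 * l ^ 3 * τ ^ (-(3 / 2) : ℝ) := by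
  have hl0 : 0 < l := by linarith
  have hrp : 0 < τ ^ (-(3 / 2) : ℝ) := Real.rpow_pos_of_pos hτ _
  have hsq1 : 1 ≤ Real.sqrt (1 + τ) := by
    rw [Real.one_le_sqrt]
    linarith
  have hs0 : 0 < Real.sqrt (1 + τ) := by linarith
  set m : ℝ := l / Real.sqrt (1 + τ) with hm
  have hm0 : 0 < m := by positivity
  have hm2 : 1 ≤ 2 * m := by
    have e1 : Real.sqrt (1 + τ) ≤ 2 * l := by
      apply Real.sqrt_le_iff.2
      constructor
      · positivity
      · nlinarith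
    rw [hm, ← mul_div_assoc, le_div_iff₀ hs0]
    linarith
  have hC0m : C0 ≤ 2 * C0 * m := by nlinarith
  have hlg : |l * g| ≤ (C1 + 2 * C0) * m := by
    rw [abs_of_nonneg (by positivity)]
    have e1 : l * g ≤ l * (C1 / Real.sqrt (1 + τ)) := mul_le_mul_of_nonneg_left hg hl0.le
    have e2 : l * (C1 / Real.sqrt (1 + τ)) = C1 * m := by rw [hm]; ring
    nlinarith
  have hlg1 : |l * g| ≤ C1 * m := by
    rw [abs_of_nonneg (by positivity)]
    have e1 : l * g ≤ l * (C1 / Real.sqrt (1 + τ)) := mul_le_mul_of_nonneg_left hg hl0.le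
    have e2 : l * (C1 / Real.sqrt (1 + τ)) = C1 * m := by rw [hm]; ring
    linarith
  have hlh1 : |l * h| ≤ C1 * m := by
    rw [abs_of_nonneg (by positivity)]
    have e1 : l * h ≤ l * (C1 / Real.sqrt (1 + τ)) := mul_le_mul_of_nonneg_left hh' hl0.le
    have e2 : l * (C1 / Real.sqrt (1 + τ)) = C1 * m := by rw [hm]; ring
    linarith
  have hlh : |l * h| ≤ (C1 + 2 * C0) * m := by nlinarith
  have key : ∀ x y : ℝ, |x - y| ≤ C0 → |y| ≤ C1 * m → |x| ≤ (C1 + 2 * C0) * m := by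
    intro x y hxy hy
    have e1 : x = (x - y) + y := by ring
    have e2 := abs_add_le (x - y) y
    rw [← e1] at e2
    nlinarith
  have hT := tele4 (key _ _ h2 hlg1) (key _ _ h3 hlh1) (key _ _ h4 hlh1) hlg hlg hlh h1 h2 h3 h4
  have e0 : l * g * (l * g) * (l * h) * (l * h) = l ^ 4 * (g * g * h * h) := by ring
  rw [e0] at hT
  refine hT.trans ?_
  have e1 : m ^ 3 ≤ l ^ 3 * τ ^ (-(3 / 2) : ℝ) := by
    rw [hm, div_pow, Real.rpow_neg hτ.le, rp32 hτ.le, div_eq_mul_inv]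
    apply mul_le_mul_of_nonneg_left _ (by positivity)
    apply inv_anti₀ (by positivity)
    exact pow_le_pow_left₀ (Real.sqrt_nonneg _) (Real.sqrt_le_sqrt (by linarith)) 3
  have hK : 0 ≤ 4 * C0 * (C1 + 2 * C0) ^ 3 := by positivity
  have e6 : 4 * C0 * ((C1 + 2 * C0) * m) ^ 3 = 4 * C0 * (C1 + 2 * C0) ^ 3 * m ^ 3 := by ring
  rw [e6]
  have e7 := mul_le_mul_of_nonneg_left e1 hK
  refine e7.trans (le_of_eq ?_)
  ring

theorem tjn (hH : S_H) : S_JN := by
  intro C0 hC0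
  obtain ⟨C1, hC1, hasy, hbd, hhc, hwc, hgc⟩ := hH
  refine ⟨2 * (4 * C0 * (C1 + 2 * C0) ^ 3), ?_⟩
  intro L hL n1 n2 c d hJ ε hε hε1
  have hL2 : (2:ℝ) ≤ L := by exact_mod_cast hL
  have hl0 : (0:ℝ) < L := by linarith
  set l : ℝ := (L:ℝ) with hlL
  set A : ℝ := 4 * C0 * (C1 + 2 * C0) ^ 3 with hA
  have hA0 : 0 ≤ A := by positivity
  set R : ℝ := ε * l ^ 2 with hR
  have hR0 : 0 < R := by positivity
  have hRl : R ≤ l ^ 2 := by
    rw [hR]
    have : 0 < l ^ 2 := by positivity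
    nlinarith
  obtain ⟨iE, vE⟩ := int_ED A R l hR0
  obtain ⟨iP, vP⟩ := int_ph R l hR0.le hhc hgc
  obtain ⟨jE, wE⟩ := int_add (meas_ED A R l) iE
  obtain ⟨jP, wP⟩ := int_add (meas_ph R l hhc hgc) iP
  set F : ℝ × ℝ → ℝ := fun p => if p.1 + p.2 ≤ R then
    n1 p.1 p.2 * n2 p.1 p.2 * c (p.1 + p.2) * d (p.1 + p.2) else 0 with hF
  have hFm : Measurable F := by
    have e1 : Continuous fun p : ℝ × ℝ => n1 p.1 p.2 := hJ.c1
    have e2 : Continuous fun p : ℝ × ℝ => n2 p.1 p.2 := hJ.c2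
    have e3 : Continuous fun p : ℝ × ℝ => c (p.1 + p.2) :=
      hJ.tr.cc.comp (continuous_fst.add continuous_snd)
    have e4 : Continuous fun p : ℝ × ℝ => d (p.1 + p.2) :=
      hJ.tr.cd.comp (continuous_fst.add continuous_snd)
    have e5 : Continuous fun p : ℝ × ℝ =>
      n1 p.1 p.2 * n2 p.1 p.2 * c (p.1 + p.2) * d (p.1 + p.2) := ((e1.mul e2).mul e3).mul e4
    exact Measurable.ite (measurableSet_le (measurable_fst.add measurable_snd) measurable_const)
      e5.measurable measurable_const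
  have hb : ∀ᵐ p ∂(hl.prod hl), ‖F p - ph R l (p.1 + p.2)‖ ≤ ED A R l (p.1 + p.2) := by
    rw [Measure.prod_restrict]
    refine ae_restrict_of_forall_mem (measurableSet_Ioi.prod measurableSet_Ioi) ?_
    rintro ⟨t, s⟩ ⟨ht, hs⟩
    have ht' : (0:ℝ) < t := ht
    have hs' : (0:ℝ) < s := hs
    have hts : 0 < t + s := by linarith
    rw [Real.norm_eq_abs]
    show |(if t + s ≤ R then n1 t s * n2 t s * c (t + s) * d (t + s) else 0) -
      ph R l (t + s)| ≤ ED A R l (t + s)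
    unfold ph ED
    by_cases h : t + s ≤ R
    · rw [if_pos h, Set.indicator_of_mem (by exact h), Set.indicator_of_mem (by exact h)]
      obtain ⟨b1, b2, -, -, b5, b6⟩ := hbd (t + s) hts.le
      exact ptw hC0 hC1 hL2 hRl hts b5 b6 b1 b2 (hJ.h1 t s ht'.le hs'.le)
        (hJ.h2 t s ht'.le hs'.le) (hJ.tr.hc (t + s) hts.le) (hJ.tr.hd (t + s) hts.le) h
    · rw [if_neg h, Set.indicator_of_notMem (by exact h), Set.indicator_of_notMem (by exact h),
        sub_zero, abs_zero]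
  have hdi : Integrable (fun p : ℝ × ℝ => F p - ph R l (p.1 + p.2)) (hl.prod hl) := by
    refine jE.mono' ?_ hb
    have e1 : Measurable fun p : ℝ × ℝ => ph R l (p.1 + p.2) :=
      (meas_ph R l hhc hgc).comp (measurable_fst.add measurable_snd)
    exact (hFm.sub e1).aestronglyMeasurable
  have hFi : Integrable F (hl.prod hl) := by
    have e1 := hdi.add jP
    refine e1.congr (Eventually.of_forall fun p => ?_)
    simp
  have hit : ∫ t in Set.Ioi (0 : ℝ), ∫ s in Set.Ioi (0 : ℝ),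
      (if t + s ≤ R then n1 t s * n2 t s * c (t + s) * d (t + s) else 0) =
      ∫ p, F p ∂(hl.prod hl) := (integral_prod F hFi).symm
  have hdiff : |∫ p, F p ∂(hl.prod hl) - ∫ p, ph R l (p.1 + p.2) ∂(hl.prod hl)| ≤
      ∫ p, ED A R l (p.1 + p.2) ∂(hl.prod hl) := by
    rw [← integral_sub hFi jP, ← Real.norm_eq_abs]
    exact norm_integral_le_of_norm_le jE hb
  rw [wE, vE, wP, vP] at hdiff
  have hsR : Real.sqrt R = Real.sqrt ε * l := by
    rw [hR, Real.sqrt_mul hε.le, Real.sqrt_sq hl0.le]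
  have hpsi : ∫ τ in (0 : ℝ)..R, τ * gg τ ^ 2 * hh τ ^ 2 = ∫ u in (0:ℝ)..R, psi u := by
    refine intervalIntegral.integral_congr fun u _ => ?_
    show u * gg u ^ 2 * hh u ^ 2 = psi u
    unfold psi
    ring
  rw [hit, hpsi]
  refine hdiff.trans (le_of_eq ?_)
  rw [hsR]
  ring

end Pool.Agent.H42.AH
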